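import Mathlib
import Pool.Agent.U839.Tp.Cand
import Pool.Agent.U839.Wg.Sm

set_option autoImplicit false

/-! # The second moment for progressions of pairs -/

open MeasureTheory ProbabilityTheory Filter Finset Topology

namespace Pool.Agent.U839.Tp

variable {Ω : Type*} [MeasurableSpace Ω] {μ : Measure Ω} [IsProbabilityMeasure μ]

/-- the points of the progression -/
def UU (k n d : ℕ) : Finset ℕ := ((range k) ×ˢ (Finset.univ : Finset Bool)).image (fun jb => pt jb.2 n d jb.1)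

theorem mem_UU {k n d m : ℕ} : m ∈ UU k n d ↔ ∃ j < k, ∃ b, pt b n d j = m := by
  unfold UU
  simp only [mem_image, mem_product, mem_range, mem_univ, and_true, Prod.exists]
  constructor
  · rintro ⟨j, b, h1, h2⟩
    exact ⟨j, h1, b, h2⟩
  · rintro ⟨j, h1, b, h2⟩
    exact ⟨j, b, h1, h2⟩

theorem pt_inj {n d j j' : ℕ} {b b' : Bool} (hn : 1 ≤ n) (hd : 3 ≤ d) (h : pt b n d j = pt b' n d j') :
    b = b' ∧ j = j' := by
  have key : ∀ i i' : ℕ, i * d + 2 = i' * d → False := by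
    intro i i' h1
    have h2 : i < i' := by
      by_contra hcon
      push Not at hcon
      have := Nat.mul_le_mul_right d hcon
      omega
    have h3 : (i + 1) * d ≤ i' * d := Nat.mul_le_mul_right d h2
    rw [add_mul, one_mul] at h3
    omega
  unfold pt at h
  cases b <;> cases b' <;> simp only [Bool.false_eq_true, if_false, if_true] at h
  · refine ⟨rfl, ?_⟩
    have h1 : j * d = j' * d := by omega
    exact Nat.eq_of_mul_eq_mul_right (by omega) h1
  · exact (key j' j (by omega)).elim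
  · exact (key j j' (by omega)).elim
  · refine ⟨rfl, ?_⟩
    have h1 : j * d = j' * d := by omega
    exact Nat.eq_of_mul_eq_mul_right (by omega) h1

theorem card_UU {k n d : ℕ} (hn : 1 ≤ n) (hd : 3 ≤ d) : (UU k n d).card = 2 * k := by
  unfold UU
  rw [card_image_of_injOn]
  · rw [card_product, card_range, Finset.card_univ, Fintype.card_bool]
    ring
  · rintro ⟨j, b⟩ _ ⟨j', b'⟩ _ h
    simp only at h
    obtain ⟨h1, h2⟩ := pt_inj hn hd h
    rw [h1, h2]

/-- the numbers `n` of a point -/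
theorem pt_eq {n n' d d' j : ℕ} {b : Bool} (hn : 1 ≤ n) (hn' : 1 ≤ n') (h : pt b n d j = pt b n' d' j) :
    n + j * d = n' + j * d' := by
  unfold pt at h
  cases b
  · simp only [Bool.false_eq_true, if_false] at h
    omega
  · simp only [if_true] at h
    omega

theorem two_pts {n n' d d' j j' : ℕ} (hjj : j ≠ j') (h1 : n + j * d = n' + j * d')
    (h2 : n + j' * d = n' + j' * d') : n = n' ∧ d = d' := by
  have h3 : ((j : ℤ) - j') * d = (j - j') * d' := by
    have a1 : (n : ℤ) + j * d = n' + j * d' := by exact_mod_cast h1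
    have a2 : (n : ℤ) + j' * d = n' + j' * d' := by exact_mod_cast h2
    linarith
  have h4 : ((j : ℤ) - j') ≠ 0 := by
    intro h5
    apply hjj
    omega
  have h5 : (d : ℤ) = d' := mul_left_cancel₀ h4 h3
  have h6 : d = d' := by exact_mod_cast h5
  rw [h6] at h1
  exact ⟨by omega, h6⟩

/-- the progressions which meet a given one -/
theorem count1 (k : ℕ) (F : Finset (ℕ × ℕ)) (D : Finset ℕ) (hF : ∀ β ∈ F, 1 ≤ β.1 ∧ β.2 ∈ D) (U : Finset ℕ) :
    (F.filter (fun β => ¬ Disjoint U (UU k β.1 β.2))).card ≤ U.card * (k * 2) * D.card := by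
  classical
  have hsub : F.filter (fun β => ¬ Disjoint U (UU k β.1 β.2)) ⊆
      (U ×ˢ ((range k ×ˢ (Finset.univ : Finset Bool)) ×ˢ D)).biUnion (fun c =>
        F.filter (fun β => β.2 = c.2.2 ∧ pt c.2.1.2 β.1 β.2 c.2.1.1 = c.1)) := by
    intro β hβ
    rw [mem_filter, Finset.not_disjoint_iff] at hβ
    obtain ⟨hβ1, u, hu1, hu2⟩ := hβ
    obtain ⟨j, hj, b, hb⟩ := mem_UU.1 hu2
    rw [mem_biUnion]
    refine ⟨(u, ((j, b), β.2)), ?_, ?_⟩
    · simp only [mem_product, mem_range, mem_univ, and_true]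
      exact ⟨hu1, hj, (hF β hβ1).2⟩
    · rw [mem_filter]
      exact ⟨hβ1, rfl, hb⟩
  refine (card_le_card hsub).trans ?_
  have h2 := card_biUnion_le_card_mul (U ×ˢ ((range k ×ˢ (Finset.univ : Finset Bool)) ×ˢ D)) (fun c =>
        F.filter (fun β => β.2 = c.2.2 ∧ pt c.2.1.2 β.1 β.2 c.2.1.1 = c.1)) 1 (by
    intro c _
    rw [card_le_one]
    intro β hβ γ hγ
    rw [mem_filter] at hβ hγ
    have hd : β.2 = γ.2 := hβ.2.1.trans hγ.2.1.symm
    have h3 := pt_eq (hF β hβ.1).1 (hF γ hγ.1).1 (hβ.2.2.trans hγ.2.2.symm)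
    rw [hd] at h3
    exact Prod.ext (by omega) hd)
  refine h2.trans ?_
  rw [card_product, card_product, card_product, card_range, Finset.card_univ, Fintype.card_bool, mul_one]
  exact le_of_eq (by ring)

/-- the progressions which meet a given one in at least three points -/
theorem count3 (k : ℕ) (F : Finset (ℕ × ℕ)) (hF : ∀ β ∈ F, 1 ≤ β.1) (U : Finset ℕ) :
    (F.filter (fun β => 3 ≤ (U ∩ UU k β.1 β.2).card)).card ≤ (U.card * (k * 2)) ^ 2 := by
  classical
  have hsub : F.filter (fun β => 3 ≤ (U ∩ UU k β.1 β.2).card) ⊆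
      ((U ×ˢ (range k ×ˢ (Finset.univ : Finset Bool))) ×ˢ (U ×ˢ (range k ×ˢ (Finset.univ : Finset Bool)))).biUnion
        (fun c => F.filter (fun β => c.1.2.1 ≠ c.2.2.1 ∧ pt c.1.2.2 β.1 β.2 c.1.2.1 = c.1.1 ∧
          pt c.2.2.2 β.1 β.2 c.2.2.1 = c.2.1)) := by
    intro β hβ
    rw [mem_filter] at hβ
    obtain ⟨hβ1, hβ2⟩ := hβ
    have hne : (U ∩ UU k β.1 β.2).Nonempty := by
      rw [← card_pos]
      omega
    obtain ⟨u, hu⟩ := hne
    rw [mem_inter] at hu
    obtain ⟨j, hj, b, hb⟩ := mem_UU.1 hu.2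
    have hex : ∃ v ∈ U ∩ UU k β.1 β.2, v ∉ ({pt true β.1 β.2 j, pt false β.1 β.2 j} : Finset ℕ) := by
      by_contra hcon
      push Not at hcon
      have h1 : U ∩ UU k β.1 β.2 ⊆ ({pt true β.1 β.2 j, pt false β.1 β.2 j} : Finset ℕ) := hcon
      have h2 := (card_le_card h1).trans (card_le_two)
      omega
    obtain ⟨v, hv1, hv2⟩ := hex
    rw [mem_inter] at hv1
    obtain ⟨j', hj', b', hb'⟩ := mem_UU.1 hv1.2
    have hjj : j ≠ j' := by
      rintro rfl
      apply hv2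
      rw [mem_insert, mem_singleton]
      cases b'
      · exact Or.inr hb'.symm
      · exact Or.inl hb'.symm
    rw [mem_biUnion]
    refine ⟨((u, (j, b)), (v, (j', b'))), ?_, ?_⟩
    · simp only [mem_product, mem_range, mem_univ, and_true]
      exact ⟨⟨hu.1, hj⟩, hv1.1, hj'⟩
    · rw [mem_filter]
      exact ⟨hβ1, hjj, hb, hb'⟩
  refine (card_le_card hsub).trans ?_
  have h2 := card_biUnion_le_card_mul ((U ×ˢ (range k ×ˢ (Finset.univ : Finset Bool))) ×ˢ
        (U ×ˢ (range k ×ˢ (Finset.univ : Finset Bool))))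
        (fun c => F.filter (fun β => c.1.2.1 ≠ c.2.2.1 ∧ pt c.1.2.2 β.1 β.2 c.1.2.1 = c.1.1 ∧
          pt c.2.2.2 β.1 β.2 c.2.2.1 = c.2.1)) 1 (by
    intro c _
    rw [card_le_one]
    intro β hβ γ hγ
    rw [mem_filter] at hβ hγ
    have h3 := pt_eq (hF β hβ.1) (hF γ hγ.1) (hβ.2.2.1.trans hγ.2.2.1.symm)
    have h4 := pt_eq (hF β hβ.1) (hF γ hγ.1) (hβ.2.2.2.trans hγ.2.2.2.symm)
    obtain ⟨h5, h6⟩ := two_pts hβ.2.1 h3 h4
    exact Prod.ext h5 h6)
  refine h2.trans ?_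
  rw [card_product, card_product, card_product, card_range, Finset.card_univ, Fintype.card_bool, mul_one]
  exact le_of_eq (by ring)

omit [IsProbabilityMeasure μ] in
theorem inter_prob {E : ℕ → Set Ω} (hE : iIndepSet E μ) (U : Finset ℕ) :
    μ.real (⋂ m ∈ U, E m) = ∏ m ∈ U, μ.real (E m) := by
  have h2 := hE.meas_biInter U
  simp only [measureReal_def]
  rw [h2, ENNReal.toReal_prod]

open Classical in
/-- the second moment -/
theorem none {E : ℕ → Set Ω} (hm : ∀ n, MeasurableSet (E n)) (hE : iIndepSet E μ) (k : ℕ) (hk : 1 ≤ k)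
    (F : Finset (ℕ × ℕ)) (D : Finset ℕ) (hF : ∀ β ∈ F, 1 ≤ β.1 ∧ 3 ≤ β.2 ∧ β.2 ∈ D) (hne : F.Nonempty)
    (q Q : ℝ) (hq : 0 < q) (hQ1 : Q ≤ 1)
    (hlow : ∀ β ∈ F, ∀ m ∈ UU k β.1 β.2, q ≤ μ.real (E m))
    (hup : ∀ β ∈ F, ∀ m ∈ UU k β.1 β.2, μ.real (E m) ≤ Q) :
    μ.real {ω | ∀ β ∈ F, ¬ ∀ m ∈ UU k β.1 β.2, ω ∈ E m} ≤
      (16 * (k : ℝ) ^ 2 * D.card * Q ^ (4 * k - 2) + 64 * (k : ℝ) ^ 4 * Q ^ (2 * k)) / (F.card * q ^ (4 * k)) := by
  obtain ⟨f, hf⟩ : ∃ f : ℕ × ℕ → Set Ω, f = fun β => ⋂ m ∈ UU k β.1 β.2, E m := ⟨_, rfl⟩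
  have hfr : ∀ β, μ.real (f β) = ∏ m ∈ UU k β.1 β.2, μ.real (E m) := by
    intro β
    rw [hf]
    exact inter_prob hE _
  have hfm : ∀ β ∈ F, MeasurableSet (f β) := by
    intro β _
    rw [hf]
    exact Finset.measurableSet_biInter _ (fun m _ => hm m)
  have hflow : ∀ β ∈ F, q ^ (2 * k) ≤ μ.real (f β) := by
    intro β hβ
    rw [hfr, ← card_UU (hF β hβ).1 (hF β hβ).2.1, ← prod_const]
    exact prod_le_prod (fun _ _ => hq.le) (hlow β hβ)
  have hFc : (0 : ℝ) < F.card := by exact_mod_cast card_pos.2 hne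
  have hsum : F.card * q ^ (2 * k) ≤ ∑ β ∈ F, μ.real (f β) := by
    rw [← nsmul_eq_mul, ← sum_const]
    exact sum_le_sum hflow
  have hpos : 0 < ∑ β ∈ F, μ.real (f β) := lt_of_lt_of_le (by positivity) hsum
  have hQ0 : 0 ≤ Q := by
    obtain ⟨β, hβ⟩ := hne
    have h0 : pt true β.1 β.2 0 ∈ UU k β.1 β.2 := mem_UU.2 ⟨0, hk, true, rfl⟩
    exact hq.le.trans ((hlow β hβ _ h0).trans (hup β hβ _ h0))
  -- the covariances
  have hcov : ∀ α ∈ F, ∀ β ∈ F, μ.real (f α ∩ f β) - μ.real (f α) * μ.real (f β) ≤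
      (if ¬ Disjoint (UU k α.1 α.2) (UU k β.1 β.2) then Q ^ (4 * k - 2) else 0) +
      (if 3 ≤ (UU k α.1 α.2 ∩ UU k β.1 β.2).card then Q ^ (2 * k) else 0) := by
    intro α hα β hβ
    have hun : μ.real (f α ∩ f β) = ∏ m ∈ UU k α.1 α.2 ∪ UU k β.1 β.2, μ.real (E m) := by
      rw [← inter_prob hE, hf]
      simp only
      congr 1
      ext ω
      simp only [Set.mem_inter_iff, Set.mem_iInter, mem_union]
      constructor
      · rintro ⟨h1, h2⟩ m (hm | hm)
        · exact h1 m hm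
        · exact h2 m hm
      · intro h
        exact ⟨fun m hm => h m (Or.inl hm), fun m hm => h m (Or.inr hm)⟩
    have hle : ∏ m ∈ UU k α.1 α.2 ∪ UU k β.1 β.2, μ.real (E m) ≤ Q ^ (UU k α.1 α.2 ∪ UU k β.1 β.2).card := by
      rw [← prod_const]
      apply prod_le_prod (fun _ _ => measureReal_nonneg)
      intro m hm
      rw [mem_union] at hm
      rcases hm with hm | hm
      · exact hup α hα m hm
      · exact hup β hβ m hm
    have hprod0 : 0 ≤ μ.real (f α) * μ.real (f β) := by positivity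
    have hc1 := card_UU (k := k) (hF α hα).1 (hF α hα).2.1
    have hc2 := card_UU (k := k) (hF β hβ).1 (hF β hβ).2.1
    have hc3 := card_union_add_card_inter (UU k α.1 α.2) (UU k β.1 β.2)
    by_cases hd : Disjoint (UU k α.1 α.2) (UU k β.1 β.2)
    · rw [if_neg (by simpa using hd)]
      have h3 : ¬ 3 ≤ (UU k α.1 α.2 ∩ UU k β.1 β.2).card := by
        rw [Finset.disjoint_iff_inter_eq_empty.1 hd, card_empty]
        omega
      rw [if_neg h3, hun, prod_union hd, ← hfr, ← hfr]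
      simp
    · rw [if_pos hd]
      by_cases h3 : 3 ≤ (UU k α.1 α.2 ∩ UU k β.1 β.2).card
      · rw [if_pos h3]
        have h4 : Q ^ (UU k α.1 α.2 ∪ UU k β.1 β.2).card ≤ Q ^ (2 * k) := by
          apply pow_le_pow_of_le_one hQ0 hQ1
          rw [← hc1]
          exact card_le_card subset_union_left
        have h5 : 0 ≤ Q ^ (4 * k - 2) := by positivity
        rw [hun]
        linarith
      · rw [if_neg h3]
        have h4 : Q ^ (UU k α.1 α.2 ∪ UU k β.1 β.2).card ≤ Q ^ (4 * k - 2) := by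
          apply pow_le_pow_of_le_one hQ0 hQ1
          omega
        rw [hun]
        linarith
  have hV : ∑ α ∈ F, ∑ β ∈ F, (μ.real (f α ∩ f β) - μ.real (f α) * μ.real (f β)) ≤
      F.card * (4 * (k : ℝ) ^ 2 * D.card * Q ^ (4 * k - 2) + 16 * (k : ℝ) ^ 4 * Q ^ (2 * k)) := by
    rw [← nsmul_eq_mul, ← sum_const]
    apply sum_le_sum
    intro α hα
    refine (sum_le_sum (hcov α hα)).trans ?_
    rw [sum_add_distrib, ← sum_filter, ← sum_filter, sum_const, sum_const, nsmul_eq_mul, nsmul_eq_mul]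
    have hc := card_UU (k := k) (hF α hα).1 (hF α hα).2.1
    have h1 := count1 k F D (fun β hβ => ⟨(hF β hβ).1, (hF β hβ).2.2⟩) (UU k α.1 α.2)
    have h3 := count3 k F (fun β hβ => (hF β hβ).1) (UU k α.1 α.2)
    rw [hc] at h1 h3
    have h1' : ((F.filter (fun β => ¬ Disjoint (UU k α.1 α.2) (UU k β.1 β.2))).card : ℝ) ≤
        4 * (k : ℝ) ^ 2 * D.card := by
      have : ((F.filter (fun β => ¬ Disjoint (UU k α.1 α.2) (UU k β.1 β.2))).card : ℝ) ≤
        ((2 * k * (k * 2) * D.card : ℕ) : ℝ) := by exact_mod_cast h1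
      refine this.trans (le_of_eq ?_)
      push_cast
      ring
    have h3' : ((F.filter (fun β => 3 ≤ (UU k α.1 α.2 ∩ UU k β.1 β.2).card)).card : ℝ) ≤ 16 * (k : ℝ) ^ 4 := by
      have : ((F.filter (fun β => 3 ≤ (UU k α.1 α.2 ∩ UU k β.1 β.2).card)).card : ℝ) ≤
        (((2 * k * (k * 2)) ^ 2 : ℕ) : ℝ) := by exact_mod_cast h3
      refine this.trans (le_of_eq ?_)
      push_cast
      ring
    gcongr
  have h := Pool.Agent.U839.Wg.sm (μ := μ) F f hfm _ hpos hV
  have hsub : {ω | ∀ β ∈ F, ¬ ∀ m ∈ UU k β.1 β.2, ω ∈ E m} ⊆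
      {ω | ((F.filter (fun i => ω ∈ f i)).card : ℝ) ≤ (∑ i ∈ F, μ.real (f i)) / 2} := by
    intro ω hω
    simp only [Set.mem_ofPred_eq] at hω ⊢
    rw [Finset.filter_eq_empty_iff.2 (fun β hβ => by
      rw [hf]
      simp only [Set.mem_iInter]
      exact hω β hβ), Finset.card_empty, Nat.cast_zero]
    positivity
  refine (measureReal_mono hsub (measure_ne_top _ _)).trans (h.trans ?_)
  have hq4 : (F.card * q ^ (2 * k)) ^ 2 = (F.card : ℝ) * (F.card * q ^ (4 * k)) := by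
    rw [mul_pow, ← pow_mul]
    have : 2 * k * 2 = 4 * k := by ring
    rw [this]
    ring
  have hnum : 0 ≤ 4 * ((F.card : ℝ) * (4 * (k : ℝ) ^ 2 * D.card * Q ^ (4 * k - 2) + 16 * (k : ℝ) ^ 4 * Q ^ (2 * k))) := by
    positivity
  calc 4 * ((F.card : ℝ) * (4 * (k : ℝ) ^ 2 * D.card * Q ^ (4 * k - 2) + 16 * (k : ℝ) ^ 4 * Q ^ (2 * k))) /
        (∑ i ∈ F, μ.real (f i)) ^ 2
      ≤ 4 * ((F.card : ℝ) * (4 * (k : ℝ) ^ 2 * D.card * Q ^ (4 * k - 2) + 16 * (k : ℝ) ^ 4 * Q ^ (2 * k))) /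
        (F.card * q ^ (2 * k)) ^ 2 := by
        apply div_le_div_of_nonneg_left hnum (by positivity)
        exact pow_le_pow_left₀ (by positivity) hsum 2
    _ = _ := by
        rw [hq4]
        field_simp
        ring

end Pool.Agent.U839.Tp
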