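import Mathlib
import Pool.Agent.U839.Tp.Pairs
import Pool.Agent.U839.Cc.Up

set_option autoImplicit false

/-! # Long progressions of twins in random models: existence -/

open MeasureTheory ProbabilityTheory Filter Finset Topology

namespace Pool.Agent.U839.Tp

open Pool.Agent.U839.Thin (tlog)
open Pool.Agent.U839.Fb (tloglog borel)
open Pool.Agent.U839.Sv (W W_pos fT fT_nonneg Sieved law')
open Pool.Agent.U839.Rg (fT_one)
open Pool.Agent.U839.Ru (mul_exp)

variable {Ω : Type*} [MeasurableSpace Ω] {μ : Measure Ω} [IsProbabilityMeasure μ]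

/-- the numerics -/
theorem numer (δ c L u : ℝ) (k : ℕ) (D F : ℝ) (hδ : 0 < δ) (hδ1 : δ ≤ 1 / 100) (hc : c ≤ 2 - 8 * δ)
    (hk : 1 ≤ k) (hku : 2 * (k : ℝ) * u ≤ c * L) (hu : 100 / δ ≤ u) (hL : Real.exp u = L)
    (huL : 100 / δ * u ≤ L) (hD : 0 < D) (hF1 : D * Real.exp ((1 - 3 * δ) * L) ≤ F)
    (hF2 : Real.exp ((2 - 5 * δ) * L) ≤ F) :
    (16 * (k : ℝ) ^ 2 * D * Real.exp (-((1 - δ / 8) * u)) ^ (4 * k - 2) +
      64 * (k : ℝ) ^ 4 * Real.exp (-((1 - δ / 8) * u)) ^ (2 * k)) /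
      (F * Real.exp (-(u + 2)) ^ (4 * k)) ≤ 2 * Real.exp (-(δ * L)) := by
  have hu0 : 0 < u := lt_of_lt_of_le (by positivity) hu
  have hL0 : 0 < L := by rw [← hL]; exact Real.exp_pos _
  have hF0 : 0 < F := lt_of_lt_of_le (Real.exp_pos _) hF2
  have hk1 : (1 : ℝ) ≤ k := by exact_mod_cast hk
  have hc2 : c ≤ 2 := by linarith
  have h100 : 100 ≤ δ * u := by
    calc (100 : ℝ) = δ * (100 / δ) := by field_simp
      _ ≤ δ * u := by gcongr
  have huL' : 100 * u ≤ δ * L := by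
    calc 100 * u = δ * (100 / δ * u) := by field_simp
      _ ≤ δ * L := by gcongr
  have hku2 : (k : ℝ) * u ≤ L := by nlinarith
  have hkL : 100 * (k : ℝ) ≤ δ * L := by
    have h2 : 100 * (k : ℝ) * u ≤ δ * L * u := by
      calc 100 * (k : ℝ) * u = 100 * (k * u) := by ring
        _ ≤ 100 * L := by gcongr
        _ ≤ (δ * u) * L := by gcongr
        _ = δ * L * u := by ring
    exact le_of_mul_le_mul_right h2 hu0
  have hkexp : (k : ℝ) ≤ Real.exp u := by
    rw [hL]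
    nlinarith
  have e3 : (16 : ℝ) ≤ Real.exp 3 := by
    have h2 : Real.exp 3 = Real.exp 1 ^ 3 := by
      rw [← Real.exp_nat_mul]
      norm_num
    rw [h2]
    have := Real.exp_one_gt_d9
    have h3 : (2.7 : ℝ) ^ 3 ≤ Real.exp 1 ^ 3 := pow_le_pow_left₀ (by norm_num) (by linarith) 3
    refine le_trans ?_ h3
    norm_num
  have e5 : (64 : ℝ) ≤ Real.exp 5 := by
    have h2 : Real.exp 5 = Real.exp 1 ^ 5 := by
      rw [← Real.exp_nat_mul]
      norm_num
    rw [h2]
    have := Real.exp_one_gt_d9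
    have h3 : (2.7 : ℝ) ^ 5 ≤ Real.exp 1 ^ 5 := pow_le_pow_left₀ (by norm_num) (by linarith) 5
    refine le_trans ?_ h3
    norm_num
  have hk2 : (k : ℝ) ^ 2 ≤ Real.exp (2 * u) := by
    have h2 : Real.exp (2 * u) = Real.exp u ^ 2 := by
      rw [← Real.exp_nat_mul]
      norm_num
    rw [h2]
    exact pow_le_pow_left₀ (by positivity) hkexp 2
  have hk4 : (k : ℝ) ^ 4 ≤ Real.exp (4 * u) := by
    have h2 : Real.exp (4 * u) = Real.exp u ^ 4 := by
      rw [← Real.exp_nat_mul]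
      norm_num
    rw [h2]
    exact pow_le_pow_left₀ (by positivity) hkexp 4
  have hcast : ((4 * k - 2 : ℕ) : ℝ) = 4 * (k : ℝ) - 2 := by
    rw [Nat.cast_sub (by omega)]
    push_cast
    ring
  have q1 : Real.exp (-((1 - δ / 8) * u)) ^ (4 * k - 2) = Real.exp (-((1 - δ / 8) * u) * (4 * k - 2)) := by
    rw [← Real.exp_nat_mul, hcast]
    congr 1
    ring
  have q2 : Real.exp (-((1 - δ / 8) * u)) ^ (2 * k) = Real.exp (-((1 - δ / 8) * u) * (2 * k)) := by
    rw [← Real.exp_nat_mul]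
    congr 1
    push_cast
    ring
  have q3 : Real.exp (-(u + 2)) ^ (4 * k) = Real.exp (-(4 * k * (u + 2))) := by
    rw [← Real.exp_nat_mul]
    congr 1
    push_cast
    ring
  rw [q1, q2, q3, add_div]
  have t1 : 16 * (k : ℝ) ^ 2 * D * Real.exp (-((1 - δ / 8) * u) * (4 * k - 2)) /
      (F * Real.exp (-(4 * k * (u + 2)))) ≤ Real.exp (-(δ * L)) := by
    rw [div_le_iff₀ (by positivity)]
    calc 16 * (k : ℝ) ^ 2 * D * Real.exp (-((1 - δ / 8) * u) * (4 * k - 2))
        ≤ Real.exp 3 * Real.exp (2 * u) * D * Real.exp (-((1 - δ / 8) * u) * (4 * k - 2)) := by gcongr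
      _ = D * Real.exp (3 + 2 * u + -((1 - δ / 8) * u) * (4 * k - 2)) := by
          rw [Real.exp_add, Real.exp_add]
          ring
      _ ≤ D * Real.exp (-(δ * L) + (1 - 3 * δ) * L + -(4 * k * (u + 2))) := by
          apply mul_le_mul_of_nonneg_left _ hD.le
          apply Real.exp_le_exp.2
          nlinarith
      _ = Real.exp (-(δ * L)) * (D * Real.exp ((1 - 3 * δ) * L) * Real.exp (-(4 * k * (u + 2)))) := by
          rw [Real.exp_add, Real.exp_add]
          ring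
      _ ≤ Real.exp (-(δ * L)) * (F * Real.exp (-(4 * k * (u + 2)))) := by gcongr
  have t2 : 64 * (k : ℝ) ^ 4 * Real.exp (-((1 - δ / 8) * u) * (2 * k)) /
      (F * Real.exp (-(4 * k * (u + 2)))) ≤ Real.exp (-(δ * L)) := by
    rw [div_le_iff₀ (by positivity)]
    calc 64 * (k : ℝ) ^ 4 * Real.exp (-((1 - δ / 8) * u) * (2 * k))
        ≤ Real.exp 5 * Real.exp (4 * u) * Real.exp (-((1 - δ / 8) * u) * (2 * k)) := by gcongr
      _ = Real.exp (5 + 4 * u + -((1 - δ / 8) * u) * (2 * k)) := by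
          rw [Real.exp_add, Real.exp_add]
      _ ≤ Real.exp (-(δ * L) + (2 - 5 * δ) * L + -(4 * k * (u + 2))) := by
          apply Real.exp_le_exp.2
          nlinarith
      _ = Real.exp (-(δ * L)) * (Real.exp ((2 - 5 * δ) * L) * Real.exp (-(4 * k * (u + 2)))) := by
          rw [Real.exp_add, Real.exp_add]
          ring
      _ ≤ Real.exp (-(δ * L)) * (F * Real.exp (-(4 * k * (u + 2)))) := by gcongr
  linarith

theorem pt_ge (b : Bool) (n d j : ℕ) : n ≤ pt b n d j + 1 := by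
  unfold pt
  cases b
  · simp only [Bool.false_eq_true, if_false]
    omega
  · simp only [if_true]
    omega

theorem pt_le (b : Bool) (n d j : ℕ) : pt b n d j ≤ n + j * d + 1 := by
  unfold pt
  cases b
  · simp only [Bool.false_eq_true, if_false]
    omega
  · simp only [if_true]
    omega

set_option maxHeartbeats 8000000 in
/-- the progressions of maximal length -/
theorem low (θ : ℝ) (hθ : 1 ≤ θ) (δ : ℝ) (hδ : 0 < δ) (hδ1 : δ ≤ 1 / 100) (c : ℝ) (hc : 0 < c)
    (hcond : 24 * (Real.log θ + 8 * δ) * θ * c ≤ 1 / 4) (hcδ : c ≤ 2 - 8 * δ)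
    (T : ℕ → ℕ) (hT : Monotone T) (hTθ : ∀ᶠ n : ℕ in atTop, (T n : ℝ) ≤ (Real.log n) ^ θ)
    {E : ℕ → Set Ω} (h : Sieved μ E T) :
    ∀ᵐ ω ∂μ, ∀ᶠ i : ℕ in atTop, ∀ k : ℕ,
      ((2 * k : ℕ) : ℝ) * Real.log (Real.log ((2 ^ i : ℕ) : ℝ)) ≤ c * Real.log ((2 ^ i : ℕ) : ℝ) →
      ∃ n d, 2 ^ i < n ∧ n ≤ 2 ^ i + 2 ^ i ∧ 1 ≤ d ∧ k * d ≤ 2 ^ i ∧ ∀ j < k, ∀ b, ω ∈ E (pt b n d j) := by
  classical
  have hTs := Pool.Agent.U839.Sv.sub_pow T θ hTθ
  obtain ⟨n₀, hn₀⟩ := eventually_atTop.1 (law' h hTs)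
  obtain ⟨m₀, hm₀⟩ := eventually_atTop.1
    (Pool.Agent.U839.Cc.prob_small θ (by linarith) T hTθ h (δ / 8) (by positivity))
  have h3m : Tendsto (fun x : ℕ => x ^ 3) atTop atTop := tendsto_pow_atTop (by norm_num)
  have h2i : Tendsto (fun i : ℕ => 2 ^ i) atTop atTop := tendsto_pow_atTop_atTop_of_one_lt (by norm_num)
  obtain ⟨K, hK⟩ : ∃ K : ℕ → ℕ, K = fun (x : ℕ) => ⌊c * Real.log x / (2 * Real.log (Real.log x))⌋₊ := ⟨_, rfl⟩
  obtain ⟨B, hB⟩ : ∃ B : ℕ → Set Ω, B = fun i => {ω | ¬ ∃ n d, 2 ^ i < n ∧ n ≤ 2 ^ i + 2 ^ i ∧ 1 ≤ d ∧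
    K (2 ^ i) * d ≤ 2 ^ i ∧ ∀ j < K (2 ^ i), ∀ b, ω ∈ E (pt b n d j)} := ⟨_, rfl⟩
  have hsum : Summable (fun i : ℕ => μ.real (B i)) := by
    have h1 : Summable (fun i : ℕ => 2 * Real.exp (-(δ * Real.log 2)) ^ i) := by
      apply Summable.mul_left
      apply summable_geometric_of_lt_one (Real.exp_pos _).le
      have := Real.log_two_gt_d9
      have h0 : -(δ * Real.log 2) < 0 := by nlinarith
      calc Real.exp (-(δ * Real.log 2)) < Real.exp 0 := Real.exp_lt_exp.2 h0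
        _ = 1 := Real.exp_zero
    refine Summable.of_norm_bounded_eventually_nat h1 ?_
    filter_upwards [h2i.eventually (cand θ hθ δ hδ hδ1 c hc hcond), h2i.eventually (h3m.eventually hTθ),
      h2i.eventually (tlog.eventually_ge_atTop 100), h2i.eventually (tloglog.eventually_ge_atTop (100 / δ)),
      h2i.eventually (tloglog.eventually (mul_exp (100 / δ + 2 / c) 1 one_pos)),
      h2i.eventually (eventually_ge_atTop (n₀ + m₀ + 4))] with i g1 g2 g3 g4 g6 g5
    rw [Real.norm_of_nonneg measureReal_nonneg]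
    obtain ⟨x, hx⟩ : ∃ x : ℕ, x = 2 ^ i := ⟨_, rfl⟩
    have hlogx : Real.log x = i * Real.log 2 := by
      rw [hx]
      push_cast
      rw [Real.log_pow]
    rw [← hx] at g1 g2 g3 g4 g5 g6
    obtain ⟨L, hL⟩ : ∃ L, L = Real.log x := ⟨_, rfl⟩
    obtain ⟨u, hu⟩ : ∃ u, u = Real.log L := ⟨_, rfl⟩
    rw [← hL] at g1 g3 g4 g6
    rw [← hu] at g1 g4 g6
    have hx4 : (4 : ℝ) ≤ x := by exact_mod_cast (by omega : 4 ≤ x)
    have hx0 : (0 : ℝ) < x := by linarith
    have hL0 : 0 < L := by linarith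
    have hxL : (x : ℝ) = Real.exp L := by rw [hL, Real.exp_log hx0]
    have hLu : Real.exp u = L := by rw [hu, Real.exp_log hL0]
    rw [one_mul, hLu] at g6
    have h100 : 10000 ≤ 100 / δ := by
      rw [le_div_iff₀ hδ]
      linarith
    have hu0 : 0 < u := by linarith
    have hd0 : 0 ≤ 2 / c := by positivity
    have huL : 100 / δ * u ≤ L := by nlinarith
    have huL' : 100 * u ≤ δ * L := by
      calc 100 * u = δ * (100 / δ * u) := by field_simp
        _ ≤ δ * L := by gcongr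
    obtain ⟨k, hk⟩ : ∃ k, k = K x := ⟨_, rfl⟩
    have hku : 2 * (k : ℝ) * u ≤ c * L := by
      have h2 : (k : ℝ) ≤ c * L / (2 * u) := by
        rw [hk, hK]
        simp only
        rw [← hL, ← hu]
        exact Nat.floor_le (by positivity)
      rw [le_div_iff₀ (by positivity)] at h2
      linarith
    have hk1 : 1 ≤ k := by
      rw [hk, hK]
      simp only
      rw [← hL, ← hu]
      apply Nat.le_floor
      rw [Nat.cast_one, le_div_iff₀ (by positivity)]
      have h2 : 2 / c * u ≤ L := by nlinarith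
      calc 1 * (2 * u) = c * (2 / c * u) := by field_simp
        _ ≤ c * L := by gcongr
    have hkR : (1 : ℝ) ≤ k := by exact_mod_cast hk1
    have hkL : (k : ℝ) ≤ L := by nlinarith
    have ht : (T (x ^ 3) : ℝ) ≤ (3 * L) ^ θ := by
      have h2 : Real.log ((x ^ 3 : ℕ) : ℝ) = 3 * L := by
        push_cast
        rw [Real.log_pow, hL]
        norm_num
      rw [h2] at g2
      exact g2
    have hku' : ((2 * k : ℕ) : ℝ) * u ≤ c * L := by
      push_cast
      exact hku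
    obtain ⟨M, hM1, hM2, hM3⟩ := g1 (T (x ^ 3)) ht k hku'
    choose! S hS1 hS2 hS3 using hM3
    -- the differences
    obtain ⟨D₀, hD₀⟩ : ∃ D₀, D₀ = x / (k * M) := ⟨_, rfl⟩
    have hkM : 0 < k * M := by positivity
    have hD1 : k * M * D₀ ≤ x := by
      rw [hD₀]
      exact Nat.mul_div_le x (k * M)
    have hD2 : Real.exp ((1 - 2 * δ) * L) ≤ D₀ := by
      have h2 : (x : ℝ) < k * M * (D₀ + 1) := by
        have h3 : x < k * M * (D₀ + 1) := by
          rw [hD₀]
          exact Nat.lt_mul_div_succ x hkM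
        exact_mod_cast h3
      have h3 : (k : ℝ) * M ≤ Real.exp (u + 3 / 2 * δ * L) := by
        rw [Real.exp_add, hLu]
        gcongr
      have h4 : Real.exp L < Real.exp (u + 3 / 2 * δ * L) * (D₀ + 1) := by
        rw [← hxL]
        refine lt_of_lt_of_le h2 ?_
        gcongr
      have h5 : Real.exp ((1 - 2 * δ) * L) * 2 ≤ Real.exp (L - (u + 3 / 2 * δ * L)) := by
        have h6 : (2 : ℝ) ≤ Real.exp 1 := by
          have := Real.exp_one_gt_d9
          linarith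
        calc Real.exp ((1 - 2 * δ) * L) * 2 ≤ Real.exp ((1 - 2 * δ) * L) * Real.exp 1 := by gcongr
          _ = Real.exp ((1 - 2 * δ) * L + 1) := (Real.exp_add _ _).symm
          _ ≤ _ := by
              apply Real.exp_le_exp.2
              nlinarith
      have h6 : Real.exp (L - (u + 3 / 2 * δ * L)) < D₀ + 1 := by
        rw [Real.exp_sub, div_lt_iff₀ (Real.exp_pos _)]
        linarith
      have h7 : 1 ≤ Real.exp ((1 - 2 * δ) * L) := Real.one_le_exp (by nlinarith)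
      linarith
    have hD0 : (0 : ℝ) < D₀ := lt_of_lt_of_le (Real.exp_pos _) hD2
    obtain ⟨𝒟, h𝒟⟩ : ∃ 𝒟 : Finset ℕ, 𝒟 = (Icc 1 D₀).image (fun e => M * e) := ⟨_, rfl⟩
    have h𝒟c : 𝒟.card = D₀ := by
      rw [h𝒟, card_image_of_injOn, Nat.card_Icc]
      · omega
      · intro a _ b _ hab
        exact Nat.eq_of_mul_eq_mul_left (by omega) hab
    have h𝒟m : ∀ d ∈ 𝒟, M ∣ d ∧ 3 ≤ d ∧ k * d ≤ x := by
      intro d hd
      rw [h𝒟, mem_image] at hd
      obtain ⟨e, he, rfl⟩ := hd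
      rw [mem_Icc] at he
      refine ⟨dvd_mul_right _ _, ?_, ?_⟩
      · calc 3 = 3 * 1 := rfl
          _ ≤ M * e := Nat.mul_le_mul hM1 he.1
      · calc k * (M * e) = k * M * e := by ring
          _ ≤ k * M * D₀ := Nat.mul_le_mul_left _ he.2
          _ ≤ x := hD1
    obtain ⟨F, hF⟩ : ∃ F : Finset (ℕ × ℕ), F = 𝒟.biUnion (fun d => (S d).image (fun n => (n, d))) := ⟨_, rfl⟩
    have hFm : ∀ β ∈ F, β.1 ∈ S β.2 ∧ β.2 ∈ 𝒟 := by
      intro β hβ
      rw [hF, mem_biUnion] at hβ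
      obtain ⟨d, hd, hβ⟩ := hβ
      rw [mem_image] at hβ
      obtain ⟨n, hn, rfl⟩ := hβ
      exact ⟨hn, hd⟩
    have hFc : (D₀ : ℝ) * Real.exp ((1 - 3 * δ) * L) ≤ F.card := by
      have h2 : F.card = ∑ d ∈ 𝒟, (S d).card := by
        rw [hF, card_biUnion]
        · apply sum_congr rfl
          intro d _
          exact card_image_of_injective _ (fun a b hab => (Prod.mk.inj hab).1)
        · intro d _ d' _ hdd
          rw [Function.onFun, Finset.disjoint_left]
          intro β hβ hβ'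
          rw [mem_image] at hβ hβ'
          obtain ⟨n, -, rfl⟩ := hβ
          obtain ⟨n', -, h3⟩ := hβ'
          exact hdd (Prod.mk.inj h3).2.symm
      rw [h2]
      push_cast
      rw [← h𝒟c, ← nsmul_eq_mul, ← sum_const]
      exact sum_le_sum (fun d hd => hS3 d (h𝒟m d hd).1)
    have hFc2 : Real.exp ((2 - 5 * δ) * L) ≤ F.card := by
      refine le_trans ?_ hFc
      calc Real.exp ((2 - 5 * δ) * L) = Real.exp ((1 - 2 * δ) * L) * Real.exp ((1 - 3 * δ) * L) := by
            rw [← Real.exp_add]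
            congr 1
            ring
        _ ≤ _ := by gcongr
    have hFne : F.Nonempty := by
      rw [← card_pos]
      have h2 : (0 : ℝ) < F.card := lt_of_lt_of_le (Real.exp_pos _) hFc2
      exact_mod_cast h2
    have hFx : ∀ β ∈ F, x < β.1 ∧ β.1 ≤ x + x := by
      intro β hβ
      obtain ⟨h2, h3⟩ := hFm β hβ
      exact mem_Ioc.1 (hS1 β.2 (h𝒟m β.2 h3).1 h2)
    have hbound : ∀ β ∈ F, ∀ j < k, ∀ b, pt b β.1 β.2 j ≤ x ^ 3 ∧ x ≤ pt b β.1 β.2 j := by
      intro β hβ j hj b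
      obtain ⟨h2, h3⟩ := hFm β hβ
      obtain ⟨h4, h5⟩ := hFx β hβ
      have h6 := pt_ge b β.1 β.2 j
      have h7 := pt_le b β.1 β.2 j
      have h8 : j * β.2 ≤ k * β.2 := Nat.mul_le_mul_right _ hj.le
      have h9 := (h𝒟m β.2 h3).2.2
      constructor
      · have h10 : x + x + x + 1 ≤ x ^ 3 := by
          have hx : 4 ≤ x := by omega
          nlinarith [Nat.mul_le_mul hx hx, Nat.mul_le_mul_right (x * x) hx]
        omega
      · omega
    have hmain := none (μ := μ) h.meas h.indep k hk1 F 𝒟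
      (fun β hβ => ⟨by have := (hFx β hβ).1; omega, (h𝒟m β.2 (hFm β hβ).2).2.1, (hFm β hβ).2⟩) hFne
      (Real.exp (-(u + 2))) (Real.exp (-((1 - δ / 8) * u))) (Real.exp_pos _)
      (Real.exp_le_one_iff.2 (by
        have : 0 ≤ (1 - δ / 8) * u := mul_nonneg (by linarith) hu0.le
        linarith)) (by
      intro β hβ m hm
      obtain ⟨j, hj, b, rfl⟩ := mem_UU.1 hm
      obtain ⟨b1, b2⟩ := hbound β hβ j hj b
      rw [hn₀ _ (by omega)]
      have hm0 : (x : ℝ) ≤ (pt b β.1 β.2 j : ℝ) := by exact_mod_cast b2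
      have hm3 : (pt b β.1 β.2 j : ℝ) ≤ (x : ℝ) ^ 3 := by exact_mod_cast b1
      have hl1 : L ≤ Real.log (pt b β.1 β.2 j) := by rw [hL]; exact Real.log_le_log hx0 hm0
      have hl2 : Real.log (pt b β.1 β.2 j) ≤ 3 * L := by
        have h5 := Real.log_le_log (by linarith) hm3
        rw [Real.log_pow, ← hL] at h5
        push_cast at h5
        exact h5
      have h4 : 1 ≤ fT T (pt b β.1 β.2 j) := fT_one (t := T (x ^ 3)) (hT b1)
        (fun p hp hpt hdvd => hS2 β.2 (h𝒟m β.2 (hFm β hβ).2).1 β.1 (hFm β hβ).1 j hj b p hp hpt hdvd)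
      have h5 : Real.exp (-(u + 2)) = 1 / (L * Real.exp 2) := by
        rw [Real.exp_neg, Real.exp_add, hLu, one_div]
      have h6 : (3 : ℝ) ≤ Real.exp 2 := by
        have := Real.add_one_le_exp (2 : ℝ)
        linarith
      rw [h5, div_le_div_iff₀ (by positivity) (by linarith)]
      have h7 : L * 3 ≤ L * Real.exp 2 := by gcongr
      have h8 : 0 < L * Real.exp 2 := by positivity
      nlinarith) (by
      intro β hβ m hm
      obtain ⟨j, hj, b, rfl⟩ := mem_UU.1 hm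
      obtain ⟨b1, b2⟩ := hbound β hβ j hj b
      refine (hm₀ _ (by omega)).trans ?_
      apply Real.exp_le_exp.2
      have hm0 : (x : ℝ) ≤ (pt b β.1 β.2 j : ℝ) := by exact_mod_cast b2
      have hl1 : L ≤ Real.log (pt b β.1 β.2 j) := by rw [hL]; exact Real.log_le_log hx0 hm0
      have hl2 : u ≤ Real.log (Real.log (pt b β.1 β.2 j)) := by rw [hu]; exact Real.log_le_log hL0 hl1
      have : (1 - δ / 8) * u ≤ (1 - δ / 8) * Real.log (Real.log (pt b β.1 β.2 j)) :=
        mul_le_mul_of_nonneg_left hl2 (by linarith)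
      linarith)
    have hsub : B i ⊆ {ω | ∀ β ∈ F, ¬ ∀ m ∈ UU k β.1 β.2, ω ∈ E m} := by
      intro ω hω
      rw [hB] at hω
      intro β hβ hcon
      apply hω
      rw [← hx, ← hk]
      refine ⟨β.1, β.2, (hFx β hβ).1, (hFx β hβ).2, ?_, (h𝒟m β.2 (hFm β hβ).2).2.2, ?_⟩
      · have := (h𝒟m β.2 (hFm β hβ).2).2.1
        omega
      · intro j hj b
        exact hcon _ (mem_UU.2 ⟨j, hj, b, rfl⟩)
    refine (measureReal_mono hsub (measure_ne_top _ _)).trans (hmain.trans ?_)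
    rw [h𝒟c]
    refine (numer δ c L u k D₀ F.card hδ hδ1 hcδ hk1 hku g4 hLu huL hD0 hFc hFc2).trans (le_of_eq ?_)
    rw [← Real.exp_nat_mul, hL, hlogx]
    congr 2
    ring
  filter_upwards [borel hsum] with ω hω
  filter_upwards [hω, h2i.eventually (tloglog.eventually_gt_atTop 0)] with i hi g1 k hk
  rw [hB] at hi
  simp only [Set.mem_ofPred_eq, not_not] at hi
  obtain ⟨n, d, h1, h2, h3, h4, h5⟩ := hi
  have hkK : k ≤ K (2 ^ i) := by
    rw [hK]
    apply Nat.le_floor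
    rw [le_div_iff₀ (by positivity)]
    push_cast at hk ⊢
    linarith
  exact ⟨n, d, h1, h2, h3, (Nat.mul_le_mul_right d hkK).trans h4, fun j hj => h5 j (lt_of_lt_of_le hj hkK)⟩

end Pool.Agent.U839.Tp
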