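import Mathlib
import Pool.Agent.U839.Tp.Low

set_option autoImplicit false

/-! # Long progressions of twins in random models: upper bound -/

open MeasureTheory ProbabilityTheory Filter Finset Topology

namespace Pool.Agent.U839.Tp

open Pool.Agent.U839.Thin (tlog)
open Pool.Agent.U839.Fb (tloglog borel)
open Pool.Agent.U839.Sv (W W_pos fT fT_nonneg Sieved law')
open Pool.Agent.U839.Ru (mul_exp)

variable {Ω : Type*} [MeasurableSpace Ω] {μ : Measure Ω} [IsProbabilityMeasure μ]

/-- the first points of the pairs -/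
def VV (k n d : ℕ) : Finset ℕ := (range k).image (fun j => pt false n d j)

theorem card_VV {k n d : ℕ} (hn : 1 ≤ n) (hd : 1 ≤ d) : (VV k n d).card = k := by
  unfold VV
  rw [card_image_of_injOn, card_range]
  intro a _ b _ hab
  simp only [pt, Bool.false_eq_true, if_false] at hab
  have h1 : a * d = b * d := by omega
  exact Nat.eq_of_mul_eq_mul_right (by omega) h1

theorem VV_sub (k n d : ℕ) : VV k n d ⊆ UU k n d := by
  intro m hm
  unfold VV at hm
  rw [mem_image] at hm
  obtain ⟨j, hj, rfl⟩ := hm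
  exact mem_UU.2 ⟨j, mem_range.1 hj, false, rfl⟩

omit [IsProbabilityMeasure μ] in
theorem prob_le {E : ℕ → Set Ω} (hE : iIndepSet E μ) (U : Finset ℕ) (Q : ℝ) (hQ : ∀ m ∈ U, μ.real (E m) ≤ Q) :
    μ.real (⋂ m ∈ U, E m) ≤ Q ^ U.card := by
  rw [inter_prob hE, ← prod_const]
  exact prod_le_prod (fun _ _ => measureReal_nonneg) hQ

/-- long progressions are rare -/
theorem up (θ : ℝ) (hθ : 0 < θ) (T : ℕ → ℕ) (hTθ : ∀ᶠ n : ℕ in atTop, (T n : ℝ) ≤ (Real.log n) ^ θ)
    {E : ℕ → Set Ω} (h : Sieved μ E T) (ε : ℝ) (hε : 0 < ε) :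
    ∀ᵐ ω ∂μ, ∀ᶠ y : ℕ in atTop, ∀ k d : ℕ, 1 ≤ d → (k - 1) * d ≤ y →
      (∀ j < k, ω ∈ E (y - j * d) ∧ ω ∈ E (y - j * d + 2)) →
      (k : ℝ) * Real.log (Real.log y) ≤ (1 + ε) * Real.log y := by
  classical
  obtain ⟨η, hη⟩ : ∃ η : ℝ, η = ε / (10 * (1 + ε)) := ⟨_, rfl⟩
  have hη0 : 0 < η := by rw [hη]; positivity
  have hη1 : η * (1 + ε) = ε / 10 := by rw [hη]; field_simp
  have hη2 : η ≤ 1 / 10 := by
    rw [hη, div_le_div_iff₀ (by positivity) (by norm_num)]
    linarith
  obtain ⟨m₀, hm₀⟩ := eventually_atTop.1 (Pool.Agent.U839.Cc.prob_small θ hθ T hTθ h η hη0)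
  obtain ⟨K, hK⟩ : ∃ K : ℕ → ℕ, K = fun (a : ℕ) => ⌈(1 + ε) * Real.log a / Real.log (Real.log a)⌉₊ := ⟨_, rfl⟩
  obtain ⟨C, hC⟩ : ∃ C : ℕ → ℕ → Set Ω, C = fun y d => ⋂ m ∈ UU (K y - 1) (y + 1 - (K y - 2) * d) d, E m :=
    ⟨_, rfl⟩
  obtain ⟨B, hB⟩ : ∃ B : ℕ → Set Ω, B = fun y => ⋃ d ∈ (Icc 1 y).filter (fun d => (K y - 1) * d ≤ y), C y d :=
    ⟨_, rfl⟩
  have hbig : ∀ᶠ y : ℕ in atTop, 3 ≤ K y := by
    filter_upwards [tlog.eventually_gt_atTop 0, tloglog.eventually_ge_atTop 1,
      tloglog.eventually (mul_exp 2 1 one_pos)] with y g1 g2 g3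
    rw [one_mul, Real.exp_log g1] at g3
    have h2 : (2 : ℝ) < (1 + ε) * Real.log y / Real.log (Real.log y) := by
      rw [lt_div_iff₀ (by linarith)]
      nlinarith
    have h3 : (2 : ℝ) < K y := by
      rw [hK]
      exact lt_of_lt_of_le h2 (Nat.le_ceil _)
    have h4 : 2 < K y := by exact_mod_cast h3
    omega
  have hsum : Summable (fun y : ℕ => μ.real (B y)) := by
    have h1 : Summable (fun a : ℕ => 3 * (1 / (a : ℝ) ^ (1 + 1 / 2 * ε))) :=
      (Real.summable_one_div_nat_rpow.2 (by linarith)).mul_left 3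
    refine Summable.of_norm_bounded_eventually_nat h1 ?_
    filter_upwards [eventually_ge_atTop ((m₀ + 4) ^ 4), tlog.eventually_ge_atTop 100,
      tloglog.eventually_ge_atTop (1 / η + 10 * (1 + ε)), hbig,
      tloglog.eventually (mul_exp (10 / ε) 1 one_pos)] with y g1 g2 g3 g4 g5
    rw [Real.norm_of_nonneg measureReal_nonneg]
    obtain ⟨L, hL⟩ : ∃ L, L = Real.log y := ⟨_, rfl⟩
    obtain ⟨u, hu⟩ : ∃ u, u = Real.log L := ⟨_, rfl⟩
    rw [← hL] at g2 g3 g5
    rw [← hu] at g3 g5
    have hy4 : (4 : ℝ) ≤ y := by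
      have h2 : 4 ≤ (m₀ + 4) ^ 4 := by
        calc 4 ≤ m₀ + 4 := by omega
          _ = (m₀ + 4) ^ 1 := (pow_one _).symm
          _ ≤ (m₀ + 4) ^ 4 := Nat.pow_le_pow_right (by omega) (by norm_num)
      exact_mod_cast h2.trans g1
    have hy0 : (0 : ℝ) < y := by linarith
    have hL0 : 0 < L := by linarith
    have hyL : (y : ℝ) = Real.exp L := by rw [hL, Real.exp_log hy0]
    have hLu : Real.exp u = L := by rw [hu, Real.exp_log hL0]
    rw [one_mul, hLu] at g5
    have h1η : 0 < 1 / η := by positivity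
    have hηu : 1 ≤ η * u := by
      calc (1 : ℝ) = η * (1 / η) := by field_simp
        _ ≤ η * u := by
          apply mul_le_mul_of_nonneg_left _ hη0.le
          nlinarith
    have hu1 : 10 * (1 + ε) ≤ u := by linarith
    have hu0 : 0 < u := by linarith
    have huε : 10 * u ≤ ε * L := by
      calc 10 * u = ε * (10 / ε * u) := by field_simp
        _ ≤ ε * L := by gcongr
    obtain ⟨k, hk⟩ : ∃ k, k = K y - 1 := ⟨_, rfl⟩
    have hk2 : 2 ≤ k := by omega
    have hKk : K y = k + 1 := by omega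
    have hku : (1 + ε) * L - u ≤ (k : ℝ) * u := by
      have h2 : (1 + ε) * L / u ≤ K y := by
        rw [hK]
        simp only
        rw [← hL, ← hu]
        exact Nat.le_ceil _
      rw [div_le_iff₀ hu0, hKk] at h2
      push_cast at h2
      linarith
    have hkL : (k : ℝ) ≤ L := by
      have h2 : (K y : ℝ) < (1 + ε) * L / u + 1 := by
        rw [hK]
        simp only
        rw [← hL, ← hu]
        exact Nat.ceil_lt_add_one (by positivity)
      rw [hKk] at h2
      push_cast at h2
      have h3 : (1 + ε) * L / u ≤ L := by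
        rw [div_le_iff₀ hu0]
        nlinarith
      linarith
    -- the points are large
    have hpts : ∀ d, 1 ≤ d → k * d ≤ y → ∀ m ∈ UU k (y + 1 - (k - 1) * d) d,
        μ.real (E m) ≤ Real.exp (-((1 - 2 * η) * u)) := by
      intro d hd hkd m hm
      obtain ⟨j, hj, b, hjb⟩ := mem_UU.1 hm
      have h2 := pt_ge b (y + 1 - (k - 1) * d) d j
      rw [hjb] at h2
      have h3 : (k - 1) * d + d = k * d := by
        rw [← Nat.succ_mul, Nat.succ_eq_add_one, Nat.sub_add_cancel (by omega)]
      have h4 : y ≤ k * m := by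
        have h5 : y - (k - 1) * d ≤ m := by omega
        have h6 : k * (y - (k - 1) * d) ≤ k * m := Nat.mul_le_mul_left k h5
        refine le_trans ?_ h6
        rw [Nat.mul_sub]
        have h7 : k * ((k - 1) * d) = (k - 1) * (k * d) := by ring
        rw [h7]
        have h8 : (k - 1) * (k * d) ≤ (k - 1) * y := Nat.mul_le_mul_left _ hkd
        have h9 : (k - 1) * y + y = k * y := by
          rw [← Nat.succ_mul, Nat.succ_eq_add_one, Nat.sub_add_cancel (by omega)]
        omega
      have h4R : (y : ℝ) ≤ k * m := by exact_mod_cast h4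
      have hk0 : (0 : ℝ) < k := by
        have : (2 : ℝ) ≤ k := by exact_mod_cast hk2
        linarith
      have hm0 : (0 : ℝ) < m := by
        by_contra hcon
        push Not at hcon
        nlinarith
      have h5 : L / 2 ≤ Real.log m := by
        have h6 := Real.log_le_log hy0 h4R
        rw [Real.log_mul hk0.ne' hm0.ne', ← hL] at h6
        have h7 : Real.log k ≤ u := by
          rw [hu]
          exact Real.log_le_log hk0 hkL
        have h8 : 2 * u ≤ L := by
          have := Real.add_one_le_exp (u / 2)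
          have h9 : Real.exp (u / 2) * Real.exp (u / 2) = L := by
            rw [← Real.exp_add, ← hLu]
            congr 1
            ring
          have h10 : (u / 2 + 1) * (u / 2 + 1) ≤ Real.exp (u / 2) * Real.exp (u / 2) := by
            have h11 : 0 ≤ u / 2 + 1 := by linarith
            gcongr
          nlinarith
        linarith
      have h6 : m₀ ≤ m := by
        by_contra hcon
        push Not at hcon
        have h7 : (m : ℝ) < m₀ := by exact_mod_cast hcon
        have h8 : Real.exp (L / 2) ≤ m := by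
          rw [← Real.exp_log hm0]
          exact Real.exp_le_exp.2 h5
        have h9 : (y : ℝ) ≤ (m : ℝ) ^ 2 := by
          rw [hyL]
          have h10 : Real.exp L = Real.exp (L / 2) ^ 2 := by
            rw [← Real.exp_nat_mul]
            congr 1
            push_cast
            ring
          rw [h10]
          exact pow_le_pow_left₀ (Real.exp_pos _).le h8 2
        have h10 : y ≤ m ^ 2 := by exact_mod_cast h9
        have h11 : m ^ 2 ≤ (m₀ + 4) ^ 2 := Nat.pow_le_pow_left (by omega) 2
        have h12 : (m₀ + 4) ^ 2 < (m₀ + 4) ^ 4 := Nat.pow_lt_pow_right (by omega) (by norm_num)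
        omega
      refine (hm₀ m h6).trans ?_
      apply Real.exp_le_exp.2
      have h7 : u - 1 ≤ Real.log (Real.log m) := by
        have h8 := Real.log_le_log (by positivity) h5
        rw [Real.log_div hL0.ne' (by norm_num), ← hu] at h8
        have := Real.log_two_lt_d9
        linarith
      have h8 : (1 - η) * (u - 1) ≤ (1 - η) * Real.log (Real.log m) :=
        mul_le_mul_of_nonneg_left h7 (by linarith)
      nlinarith
    have hQ1 : Real.exp (-((1 - 2 * η) * u)) ≤ 1 := by
      rw [Real.exp_le_one_iff]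
      have : 0 ≤ (1 - 2 * η) * u := mul_nonneg (by linarith) hu0.le
      linarith
    have hexp : (1 + 3 / 5 * ε) * L ≤ (1 - 2 * η) * (k * u) := by
      have h2 : (1 - 2 * η) * ((1 + ε) * L - u) ≤ (1 - 2 * η) * (k * u) :=
        mul_le_mul_of_nonneg_left hku (by linarith)
      have h3 : (1 - 2 * η) * ((1 + ε) * L - u) = (1 + ε - 2 * (η * (1 + ε))) * L - (1 - 2 * η) * u := by ring
      rw [h3, hη1] at h2
      nlinarith
    have hc1 : ∀ d, 1 ≤ d → k * d ≤ y → μ.real (C y d) ≤ Real.exp (-((1 + 3 / 5 * ε) * L)) := by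
      intro d hd hkd
      have hn : 1 ≤ y + 1 - (k - 1) * d := by
        have h2 : (k - 1) * d ≤ k * d := Nat.mul_le_mul_right d (Nat.sub_le k 1)
        omega
      have h2 : C y d ⊆ ⋂ m ∈ VV k (y + 1 - (k - 1) * d) d, E m := by
        intro ω hω
        rw [hC] at hω
        simp only at hω
        rw [hKk, Nat.add_sub_cancel, show k + 1 - 2 = k - 1 by omega, Set.mem_iInter₂] at hω
        rw [Set.mem_iInter₂]
        exact fun m hm => hω m (VV_sub _ _ _ hm)
      refine (measureReal_mono h2 (measure_ne_top _ _)).trans ?_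
      refine (prob_le h.indep _ (Real.exp (-((1 - 2 * η) * u)))
        (fun m hm => hpts d hd hkd m (VV_sub _ _ _ hm))).trans ?_
      rw [card_VV hn hd, ← Real.exp_nat_mul]
      apply Real.exp_le_exp.2
      linarith
    have hc2 : ∀ d, 3 ≤ d → k * d ≤ y → μ.real (C y d) ≤ Real.exp (-((2 + 6 / 5 * ε) * L)) := by
      intro d hd hkd
      have hn : 1 ≤ y + 1 - (k - 1) * d := by
        have h2 : (k - 1) * d ≤ k * d := Nat.mul_le_mul_right d (Nat.sub_le k 1)
        omega
      have h2 : C y d = ⋂ m ∈ UU k (y + 1 - (k - 1) * d) d, E m := by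
        rw [hC]
        simp only
        rw [hKk, Nat.add_sub_cancel, show k + 1 - 2 = k - 1 by omega]
      rw [h2]
      refine (prob_le h.indep _ (Real.exp (-((1 - 2 * η) * u)))
        (fun m hm => hpts d (by omega) hkd m hm)).trans ?_
      rw [card_UU hn hd, ← Real.exp_nat_mul]
      apply Real.exp_le_exp.2
      push_cast
      linarith
    have hsub : (Icc 1 y).filter (fun d => (K y - 1) * d ≤ y) ⊆ {1, 2} ∪ (Icc 3 y).filter (fun d => k * d ≤ y) := by
      intro d hd
      rw [mem_filter, mem_Icc, ← hk] at hd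
      simp only [mem_union, mem_insert, mem_singleton, mem_filter, mem_Icc]
      rcases lt_or_ge d 3 with h3 | h3
      · left
        omega
      · right
        exact ⟨⟨h3, hd.1.2⟩, hd.2⟩
    have hB1 : μ.real (B y) ≤ ∑ d ∈ (Icc 1 y).filter (fun d => (K y - 1) * d ≤ y), μ.real (C y d) := by
      rw [hB]
      exact measureReal_biUnion_finset_le _ _
    have hB2 : ∑ d ∈ (Icc 1 y).filter (fun d => (K y - 1) * d ≤ y), μ.real (C y d) ≤
        ∑ d ∈ (Icc 1 y).filter (fun d => (K y - 1) * d ≤ y),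
          ((if d ∈ ({1, 2} : Finset ℕ) then Real.exp (-((1 + 3 / 5 * ε) * L)) else 0) +
            Real.exp (-((2 + 6 / 5 * ε) * L))) := by
      apply sum_le_sum
      intro d hd
      rw [mem_filter, mem_Icc, ← hk] at hd
      have hp := Real.exp_pos (-((2 + 6 / 5 * ε) * L))
      by_cases h3 : d ∈ ({1, 2} : Finset ℕ)
      · rw [if_pos h3]
        have := hc1 d hd.1.1 hd.2
        linarith
      · rw [if_neg h3, zero_add]
        apply hc2 d _ hd.2
        simp only [mem_insert, mem_singleton, not_or] at h3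
        omega
    have hB3 : ∑ d ∈ (Icc 1 y).filter (fun d => (K y - 1) * d ≤ y),
          ((if d ∈ ({1, 2} : Finset ℕ) then Real.exp (-((1 + 3 / 5 * ε) * L)) else 0) +
            Real.exp (-((2 + 6 / 5 * ε) * L))) ≤
        2 * Real.exp (-((1 + 3 / 5 * ε) * L)) + y * Real.exp (-((2 + 6 / 5 * ε) * L)) := by
      rw [sum_add_distrib, ← sum_filter, sum_const, sum_const, nsmul_eq_mul, nsmul_eq_mul]
      have h2 : ((((Icc 1 y).filter (fun d => (K y - 1) * d ≤ y)).filter
          (fun d => d ∈ ({1, 2} : Finset ℕ))).card : ℝ) ≤ 2 := by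
        have h3 : (((Icc 1 y).filter (fun d => (K y - 1) * d ≤ y)).filter
          (fun d => d ∈ ({1, 2} : Finset ℕ))) ⊆ ({1, 2} : Finset ℕ) := by
          intro d hd
          exact (mem_filter.1 hd).2
        have h4 := (card_le_card h3).trans card_le_two
        exact_mod_cast h4
      have h3 : (((Icc 1 y).filter (fun d => (K y - 1) * d ≤ y)).card : ℝ) ≤ y := by
        have h4 := card_filter_le (Icc 1 y) (fun d => (K y - 1) * d ≤ y)
        rw [Nat.card_Icc] at h4
        have h5 : ((Icc 1 y).filter (fun d => (K y - 1) * d ≤ y)).card ≤ y := by omega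
        exact_mod_cast h5
      gcongr
    refine (hB1.trans (hB2.trans hB3)).trans ?_
    have e1 : Real.exp (-((1 + 3 / 5 * ε) * L)) ≤ 1 / (y : ℝ) ^ (1 + 1 / 2 * ε) := by
      rw [Real.rpow_def_of_pos hy0, ← hL, le_div_iff₀ (Real.exp_pos _), ← Real.exp_add, Real.exp_le_one_iff]
      nlinarith
    have e2 : y * Real.exp (-((2 + 6 / 5 * ε) * L)) ≤ 1 / (y : ℝ) ^ (1 + 1 / 2 * ε) := by
      rw [Real.rpow_def_of_pos hy0, ← hL, le_div_iff₀ (Real.exp_pos _), hyL, ← Real.exp_add, ← Real.exp_add,
        Real.exp_le_one_iff]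
      nlinarith
    linarith
  filter_upwards [borel hsum] with ω hω
  filter_upwards [hω, tloglog.eventually_gt_atTop 0, hbig] with y hy g1 g4 k d hd hkd hk
  by_contra hcon
  push Not at hcon
  apply hy
  have hKk : K y ≤ k := by
    rw [hK]
    apply Nat.ceil_le.2
    rw [div_le_iff₀ g1]
    exact hcon.le
  have hKd : (K y - 1) * d ≤ y := (Nat.mul_le_mul_right d (by omega)).trans hkd
  have h2 : (K y - 2) * d + d = (K y - 1) * d := by
    rw [← Nat.succ_mul, Nat.succ_eq_add_one]
    congr 1
    omega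
  rw [hB, Set.mem_iUnion₂]
  refine ⟨d, ?_, ?_⟩
  · rw [mem_filter, mem_Icc]
    refine ⟨⟨hd, ?_⟩, hKd⟩
    have : 1 * d ≤ (K y - 1) * d := Nat.mul_le_mul_right d (by omega)
    omega
  · rw [hC, Set.mem_iInter₂]
    intro m hm
    obtain ⟨j, hj, b, rfl⟩ := mem_UU.1 hm
    have hjd : (K y - 2 - j) * d + j * d = (K y - 2) * d := by
      rw [← add_mul]
      congr 1
      omega
    obtain ⟨h5, h6⟩ := hk (K y - 2 - j) (by omega)
    unfold pt
    cases b
    · simp only [Bool.false_eq_true, if_false]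
      have h7 : y + 1 - (K y - 2) * d + j * d - 1 = y - (K y - 2 - j) * d := by omega
      rw [h7]
      exact h5
    · simp only [if_true]
      have h7 : y + 1 - (K y - 2) * d + j * d + 1 = y - (K y - 2 - j) * d + 2 := by omega
      rw [h7]
      exact h6

end Pool.Agent.U839.Tp
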