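import Mathlib
import Pool.Agent.U839.Tp.Up
import Pool.Agent.U839.Cc.Fin

set_option autoImplicit false

/-! # The longest progression of twins in random models -/

open MeasureTheory ProbabilityTheory Filter Finset Topology

namespace Pool.Agent.U839.Tp

open Pool.Agent.U839.Thin (tlog)
open Pool.Agent.U839.Fb (tloglog borel)
open Pool.Agent.U839.Sv (fT Sieved)
open Pool.Agent.U839.Cc (mono_frac)

/-- `a, a + b, ..., a + (k-1) b` are first members of twins -/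
def Prog (Q : Set ℕ) (k a b : ℕ) : Prop := ∀ j < k, a + j * b ∈ Q ∧ a + j * b + 2 ∈ Q

/-- the longest progression up to `X` -/
noncomputable def LL (Q : Set ℕ) (X : ℕ) : ℕ :=
  sSup {k | ∃ a b, 1 ≤ a ∧ 1 ≤ b ∧ a + (k - 1) * b ≤ X ∧ Prog Q k a b}

theorem LL_bdd (Q : Set ℕ) (X : ℕ) :
    X + 1 ∈ upperBounds {k | ∃ a b, 1 ≤ a ∧ 1 ≤ b ∧ a + (k - 1) * b ≤ X ∧ Prog Q k a b} := by
  rintro k ⟨a, b, ha, hb, hX, -⟩
  have h1 : (k - 1) * 1 ≤ (k - 1) * b := Nat.mul_le_mul_left _ hb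
  omega

theorem up_det (Q : Set ℕ) (ε : ℝ) (hε : 0 < ε)
    (hup : ∀ᶠ y : ℕ in atTop, ∀ k d : ℕ, 1 ≤ d → (k - 1) * d ≤ y →
      (∀ j < k, y - j * d ∈ Q ∧ y - j * d + 2 ∈ Q) →
      (k : ℝ) * Real.log (Real.log y) ≤ (1 + ε) * Real.log y) :
    ∀ᶠ X : ℕ in atTop, (LL Q X : ℝ) * Real.log (Real.log X) ≤ (1 + ε) * Real.log X := by
  obtain ⟨N₀, hN₀⟩ := eventually_atTop.1 (hup.and (tloglog.eventually_ge_atTop 1))
  filter_upwards [tlog.eventually_gt_atTop 0,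
    tloglog.eventually (Pool.Agent.U839.Ru.mul_exp (N₀ + 1 : ℝ) 1 one_pos), tloglog.eventually_ge_atTop 1,
    eventually_ge_atTop 1] with X g2 g3 g4 g5
  have hmem : LL Q X ∈ {k | ∃ a b, 1 ≤ a ∧ 1 ≤ b ∧ a + (k - 1) * b ≤ X ∧ Prog Q k a b} :=
    Nat.sSup_mem ⟨0, 1, 1, le_refl 1, le_refl 1, by simpa using g5, by intro j hj; omega⟩ ⟨_, LL_bdd Q X⟩
  obtain ⟨a, b, ha, hb, hX, hk⟩ := hmem
  obtain ⟨k, hk'⟩ : ∃ k, k = LL Q X := ⟨_, rfl⟩
  rw [← hk'] at hk hX ⊢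
  rw [one_mul, Real.exp_log g2] at g3
  rcases Nat.lt_or_ge (a + (k - 1) * b) N₀ with h2 | h2
  · have h1 : (k - 1) * 1 ≤ (k - 1) * b := Nat.mul_le_mul_left _ hb
    have h5 : k ≤ N₀ + 1 := by omega
    have h6 : (k : ℝ) ≤ N₀ + 1 := by exact_mod_cast h5
    calc (k : ℝ) * Real.log (Real.log X) ≤ (N₀ + 1) * Real.log (Real.log X) := by gcongr
      _ ≤ Real.log X := g3
      _ ≤ (1 + ε) * Real.log X := by nlinarith
  · obtain ⟨h3, h4⟩ := hN₀ _ h2
    obtain ⟨y, hy⟩ : ∃ y, y = a + (k - 1) * b := ⟨_, rfl⟩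
    rw [← hy] at h3 h4 hX
    have h5 := h3 k b hb (by omega) (fun j hj => by
      have h6 : (k - 1 - j) * b + j * b = (k - 1) * b := by
        rw [← add_mul]
        congr 1
        omega
      have h7 : y - j * b = a + (k - 1 - j) * b := by omega
      rw [h7]
      exact hk (k - 1 - j) (by omega))
    have hX0 : (0 : ℝ) < X := by exact_mod_cast g5
    have hy0 : (0 : ℝ) < y := by exact_mod_cast (by omega : 0 < y)
    have hly : 0 < Real.log y := by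
      by_contra hcon
      push Not at hcon
      have h6 : 0 ≤ Real.log (y : ℝ) := Real.log_natCast_nonneg y
      have h7 : Real.log (y : ℝ) = 0 := le_antisymm hcon h6
      rw [h7, Real.log_zero] at h4
      linarith
    have hlb : Real.log y ≤ Real.log X := Real.log_le_log hy0 (by exact_mod_cast hX)
    have h6 := mono_frac (Real.log y) (Real.log X) hly hlb h4
    have h9 : (k : ℝ) * Real.log (Real.log X) * (Real.log y * Real.log (Real.log y)) ≤
        (1 + ε) * Real.log X * (Real.log y * Real.log (Real.log y)) := by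
      calc (k : ℝ) * Real.log (Real.log X) * (Real.log y * Real.log (Real.log y))
          = (k * Real.log (Real.log y)) * (Real.log y * Real.log (Real.log X)) := by ring
        _ ≤ ((1 + ε) * Real.log y) * (Real.log X * Real.log (Real.log y)) := by
            apply mul_le_mul h5 h6
            · apply mul_nonneg hly.le
              linarith
            · positivity
        _ = (1 + ε) * Real.log X * (Real.log y * Real.log (Real.log y)) := by ring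
    exact le_of_mul_le_mul_right h9 (by positivity)

theorem low_det (Q : Set ℕ) (c : ℝ) (hc : 0 < c) (ε : ℝ) (hε : 0 < ε)
    (hlow : ∀ᶠ i : ℕ in atTop, ∀ k : ℕ,
      ((2 * k : ℕ) : ℝ) * Real.log (Real.log ((2 ^ i : ℕ) : ℝ)) ≤ c * Real.log ((2 ^ i : ℕ) : ℝ) →
      ∃ n d, 2 ^ i < n ∧ n ≤ 2 ^ i + 2 ^ i ∧ 1 ≤ d ∧ k * d ≤ 2 ^ i ∧ ∀ j < k, ∀ b, pt b n d j ∈ Q) :
    ∀ᶠ X : ℕ in atTop, (c / 2 - ε) * Real.log X ≤ (LL Q X : ℝ) * Real.log (Real.log X) := by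
  have hi : Tendsto (fun X : ℕ => Nat.log 2 X - 2) atTop atTop := by
    apply tendsto_atTop_atTop.2
    intro b
    refine ⟨2 ^ (b + 2), fun a ha => ?_⟩
    have h1 : b + 2 ≤ Nat.log 2 a := Nat.le_log_of_pow_le (by norm_num) ha
    show b ≤ Nat.log 2 a - 2
    omega
  have h2i : Tendsto (fun X : ℕ => 2 ^ (Nat.log 2 X - 2)) atTop atTop :=
    (tendsto_pow_atTop_atTop_of_one_lt (by norm_num : (1 : ℕ) < 2)).comp hi
  filter_upwards [hi.eventually hlow, h2i.eventually (tloglog.eventually_gt_atTop 0),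
    h2i.eventually (tlog.eventually_gt_atTop 0),
    tloglog.eventually (Pool.Agent.U839.Ru.mul_exp (2 / ε) 1 one_pos), tlog.eventually_ge_atTop (4 * c / ε + 1),
    eventually_ge_atTop 8] with X g1 g2 g3 g4 g5 g6
  obtain ⟨x, hxd⟩ : ∃ x, x = 2 ^ (Nat.log 2 X - 2) := ⟨_, rfl⟩
  rw [← hxd] at g1 g2 g3
  have hl2 : 2 ≤ Nat.log 2 X := Nat.le_log_of_pow_le (by norm_num) (by omega)
  have hpow : 2 ^ Nat.log 2 X = 4 * x := by
    rw [hxd, show (4 : ℕ) = 2 ^ 2 by norm_num, ← pow_add]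
    congr 1
    omega
  have hxX : 4 * x ≤ X := by
    rw [← hpow]
    exact Nat.pow_log_le_self 2 (by omega)
  have hXx : X < 8 * x := by
    have h1 : X < 2 ^ (Nat.log 2 X + 1) := Nat.lt_pow_succ_log_self (by norm_num) X
    rw [pow_succ, hpow] at h1
    omega
  have hX0 : (0 : ℝ) < X := by exact_mod_cast (by omega : 0 < X)
  have hx0 : (0 : ℝ) < x := by exact_mod_cast (by omega : 0 < x)
  have hcε : 0 ≤ 4 * c / ε := by positivity
  have hLX : 0 < Real.log X := by linarith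
  obtain ⟨k, hk⟩ : ∃ k, k = ⌊c * Real.log x / (2 * Real.log (Real.log x))⌋₊ := ⟨_, rfl⟩
  have hk1 : ((2 * k : ℕ) : ℝ) * Real.log (Real.log x) ≤ c * Real.log x := by
    have h2 : (k : ℝ) ≤ c * Real.log x / (2 * Real.log (Real.log x)) := by
      rw [hk]
      exact Nat.floor_le (by positivity)
    rw [le_div_iff₀ (by positivity)] at h2
    push_cast
    linarith
  have hk2 : c * Real.log x ≤ (k + 1) * (2 * Real.log (Real.log x)) := by
    have h2 := Nat.lt_floor_add_one (c * Real.log x / (2 * Real.log (Real.log x)))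
    rw [← hk, div_lt_iff₀ (by positivity)] at h2
    exact h2.le
  obtain ⟨n, d, h1, h2, h3, h4, h5⟩ := g1 k hk1
  have hkL : k ≤ LL Q X := by
    refine le_csSup ⟨_, LL_bdd Q X⟩ ⟨n - 1, d, by omega, h3, ?_, ?_⟩
    · have h6 : (k - 1) * d ≤ k * d := Nat.mul_le_mul_right d (Nat.sub_le k 1)
      omega
    · intro j hj
      have h6 := h5 j hj false
      have h7 := h5 j hj true
      unfold pt at h6 h7
      simp only [Bool.false_eq_true, if_false] at h6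
      simp only [if_true] at h7
      have h8 : n - 1 + j * d = n + j * d - 1 := by omega
      have h9 : n - 1 + j * d + 2 = n + j * d + 1 := by omega
      rw [h9, h8]
      exact ⟨h6, h7⟩
  have hlog1 : Real.log x ≤ Real.log X := Real.log_le_log hx0 (by exact_mod_cast (by omega : x ≤ X))
  have hlog2 : Real.log X ≤ Real.log x + 3 := by
    have h2 : (X : ℝ) ≤ 8 * x := by exact_mod_cast hXx.le
    have h3 := Real.log_le_log hX0 h2
    rw [Real.log_mul (by norm_num) hx0.ne'] at h3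
    have h4 : Real.log 8 ≤ 3 := by
      rw [show (8 : ℝ) = 2 ^ 3 by norm_num, Real.log_pow]
      have := Real.log_two_lt_d9
      push_cast
      linarith
    linarith
  have hll : Real.log (Real.log x) ≤ Real.log (Real.log X) := Real.log_le_log g3 hlog1
  have hll0 : 0 < Real.log (Real.log X) := by linarith
  rw [one_mul, Real.exp_log hLX] at g4
  have h5' : Real.log (Real.log X) ≤ ε / 2 * Real.log X := by
    have h6 : 2 / ε * Real.log (Real.log X) * (ε / 2) ≤ Real.log X * (ε / 2) := by gcongr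
    have h7 : 2 / ε * Real.log (Real.log X) * (ε / 2) = Real.log (Real.log X) := by field_simp
    linarith
  have h6 : 2 * c ≤ ε / 2 * Real.log X := by
    have h7 : 4 * c / ε ≤ Real.log X := by linarith
    rw [div_le_iff₀ hε] at h7
    linarith
  have h8 : ((k : ℝ) + 1) * Real.log (Real.log x) ≤ (k + 1) * Real.log (Real.log X) := by gcongr
  have h9 : (k : ℝ) * Real.log (Real.log X) ≤ LL Q X * Real.log (Real.log X) := by gcongr
  have h10 : c / 2 * Real.log X ≤ c / 2 * (Real.log x + 3) := by gcongr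
  linarith

variable {Ω : Type*} [MeasurableSpace Ω] {μ : Measure Ω} [IsProbabilityMeasure μ]

/-- sieves up to `(log n)^(1 + o(1))` -/
theorem main1 {Ω : Type*} [MeasurableSpace Ω] {μ : Measure Ω} [IsProbabilityMeasure μ] (T : ℕ → ℕ) (hT : Monotone T)
    (hT1 : ∀ δ : ℝ, 0 < δ → ∀ᶠ n : ℕ in atTop, (T n : ℝ) ≤ (Real.log n) ^ (1 + δ))
    {E : ℕ → Set Ω} (h : Sieved μ E T) :
    ∀ᵐ ω ∂μ, Tendsto (fun X : ℕ => (LL {n | ω ∈ E n} X : ℝ) * Real.log (Real.log X) / Real.log X) atTop (𝓝 1) := by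
  have hT2 := hT1 1 one_pos
  have hlow : ∀ m : ℕ, ∀ᵐ ω ∂μ, ∀ᶠ i : ℕ in atTop, ∀ k : ℕ,
      ((2 * k : ℕ) : ℝ) * Real.log (Real.log ((2 ^ i : ℕ) : ℝ)) ≤
        (2 * (1 - 1 / ((m : ℝ) + 2))) * Real.log ((2 ^ i : ℕ) : ℝ) →
      ∃ n d, 2 ^ i < n ∧ n ≤ 2 ^ i + 2 ^ i ∧ 1 ≤ d ∧ k * d ≤ 2 ^ i ∧ ∀ j < k, ∀ b, ω ∈ E (pt b n d j) := by
    intro m
    obtain ⟨δ, hδ⟩ : ∃ δ : ℝ, δ = min (1 / 2000) (1 / ((m : ℝ) + 2) / 5) := ⟨_, rfl⟩
    have hδ0 : 0 < δ := by rw [hδ]; positivity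
    have hδ1 : δ ≤ 1 / 2000 := by rw [hδ]; exact min_le_left _ _
    have hδ2 : δ ≤ 1 / ((m : ℝ) + 2) / 5 := by rw [hδ]; exact min_le_right _ _
    have hm : 1 / ((m : ℝ) + 2) < 1 := by
      have h0 : (0 : ℝ) ≤ m := Nat.cast_nonneg _
      rw [div_lt_one (by positivity)]
      linarith
    have hm0 : 0 < 1 / ((m : ℝ) + 2) := by positivity
    apply low (1 + δ) (by linarith) δ hδ0 (by linarith) (2 * (1 - 1 / ((m : ℝ) + 2))) (by linarith) _ (by linarith)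
      T hT (hT1 δ hδ0) h
    have h1 : Real.log (1 + δ) ≤ δ := by
      have := Real.log_le_sub_one_of_pos (show (0 : ℝ) < 1 + δ by linarith)
      linarith
    have h2 : 0 ≤ Real.log (1 + δ) := Real.log_nonneg (by linarith)
    have h3 : 24 * (Real.log (1 + δ) + 8 * δ) * (1 + δ) ≤ 1 / 8 := by nlinarith
    have h4 : 0 ≤ 24 * (Real.log (1 + δ) + 8 * δ) * (1 + δ) := by positivity
    calc 24 * (Real.log (1 + δ) + 8 * δ) * (1 + δ) * (2 * (1 - 1 / ((m : ℝ) + 2)))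
        ≤ 24 * (Real.log (1 + δ) + 8 * δ) * (1 + δ) * 2 := by gcongr; linarith
      _ ≤ 1 / 4 := by linarith
  have hup : ∀ m : ℕ, ∀ᵐ ω ∂μ, ∀ᶠ y : ℕ in atTop, ∀ k d : ℕ, 1 ≤ d → (k - 1) * d ≤ y →
      (∀ j < k, ω ∈ E (y - j * d) ∧ ω ∈ E (y - j * d + 2)) →
      (k : ℝ) * Real.log (Real.log y) ≤ (1 + 1 / ((m : ℝ) + 2)) * Real.log y := fun m =>
    up (1 + 1) (by norm_num) T hT2 h _ (by positivity)
  filter_upwards [ae_all_iff.2 hlow, ae_all_iff.2 hup] with ω g1 g2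
  rw [Metric.tendsto_nhds]
  intro ε hε
  obtain ⟨m, hm⟩ := exists_nat_gt (4 / ε)
  have hm0 : 0 < (m : ℝ) + 2 := by positivity
  have hmε : 1 / ((m : ℝ) + 2) ≤ ε / 4 := by
    rw [div_lt_iff₀ hε] at hm
    rw [div_le_iff₀ hm0]
    linarith
  have hd : 0 < 1 / ((m : ℝ) + 2) := by positivity
  have hm1 : 1 / ((m : ℝ) + 2) < 1 := by
    have h0 : (0 : ℝ) ≤ m := Nat.cast_nonneg _
    rw [div_lt_one (by positivity)]
    linarith
  filter_upwards [up_det {n | ω ∈ E n} _ hd (g2 m),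
    low_det {n | ω ∈ E n} (2 * (1 - 1 / ((m : ℝ) + 2))) (by linarith) (ε / 4) (by positivity) (g1 m),
    tlog.eventually_gt_atTop 0] with X h1 h2 h3
  rw [Real.dist_eq, abs_lt]
  constructor
  · have : 1 - ε < (LL {n | ω ∈ E n} X : ℝ) * Real.log (Real.log X) / Real.log X := by
      rw [lt_div_iff₀ h3]
      nlinarith
    linarith
  · have : (LL {n | ω ∈ E n} X : ℝ) * Real.log (Real.log X) / Real.log X < 1 + ε := by
      rw [div_lt_iff₀ h3]
      nlinarith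
    linarith

/-- sieves up to `(log n)^θ` -/
theorem main2 (θ : ℝ) (hθ : 0 < θ) : ∃ c : ℝ, 0 < c ∧ ∀ (T : ℕ → ℕ), Monotone T →
    (∀ᶠ n : ℕ in atTop, (T n : ℝ) ≤ (Real.log n) ^ θ) →
    ∀ (Ω : Type*) [MeasurableSpace Ω] (μ : Measure Ω) [IsProbabilityMeasure μ] (E : ℕ → Set Ω), Sieved μ E T →
    ∀ᵐ ω ∂μ,
      (∀ᶠ X : ℕ in atTop, c ≤ (LL {n | ω ∈ E n} X : ℝ) * Real.log (Real.log X) / Real.log X) ∧
      (∀ ε : ℝ, 0 < ε → ∀ᶠ X : ℕ in atTop,
        (LL {n | ω ∈ E n} X : ℝ) * Real.log (Real.log X) / Real.log X ≤ 1 + ε) ∧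
      ∀ k : ℕ, {a | ∃ b, 1 ≤ b ∧ Prog {n | ω ∈ E n} k a b}.Infinite := by
  obtain ⟨θ', hθ'⟩ : ∃ θ' : ℝ, θ' = max θ 1 := ⟨_, rfl⟩
  have hθ1 : 1 ≤ θ' := by rw [hθ']; exact le_max_right _ _
  have hθ2 : θ ≤ θ' := by rw [hθ']; exact le_max_left _ _
  have hl0 : 0 ≤ Real.log θ' := Real.log_nonneg hθ1
  obtain ⟨c₀, hc₀⟩ : ∃ c₀ : ℝ, c₀ = min (1 / 2) (1 / (100 * (Real.log θ' + 1) * θ')) := ⟨_, rfl⟩
  have hc0 : 0 < c₀ := by rw [hc₀]; positivity
  have hc1 : c₀ ≤ 1 / 2 := by rw [hc₀]; exact min_le_left _ _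
  have hc2 : (100 * (Real.log θ' + 1) * θ') * c₀ ≤ 1 := by
    have h1 : c₀ ≤ 1 / (100 * (Real.log θ' + 1) * θ') := by rw [hc₀]; exact min_le_right _ _
    rw [le_div_iff₀ (by positivity)] at h1
    linarith
  have hcond : 24 * (Real.log θ' + 8 * (1 / 1000)) * θ' * c₀ ≤ 1 / 4 := by
    have h1 : 24 * (Real.log θ' + 8 * (1 / 1000)) ≤ 24 * (Real.log θ' + 1) := by linarith
    have h2 : 24 * (Real.log θ' + 8 * (1 / 1000)) * θ' * c₀ ≤ 24 * (Real.log θ' + 1) * θ' * c₀ := by gcongr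
    nlinarith
  refine ⟨c₀ / 4, by positivity, fun T hT hTθ Ω _ μ _ E h => ?_⟩
  have hTθ' : ∀ᶠ n : ℕ in atTop, (T n : ℝ) ≤ (Real.log n) ^ θ' := by
    filter_upwards [hTθ, tlog.eventually_ge_atTop 1] with n g1 g2
    exact g1.trans (Real.rpow_le_rpow_of_exponent_le g2 hθ2)
  have hup : ∀ m : ℕ, ∀ᵐ ω ∂μ, ∀ᶠ y : ℕ in atTop, ∀ k d : ℕ, 1 ≤ d → (k - 1) * d ≤ y →
      (∀ j < k, ω ∈ E (y - j * d) ∧ ω ∈ E (y - j * d + 2)) →
      (k : ℝ) * Real.log (Real.log y) ≤ (1 + 1 / ((m : ℝ) + 2)) * Real.log y := fun m =>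
    up θ hθ T hTθ h _ (by positivity)
  filter_upwards [low θ' hθ1 (1 / 1000) (by norm_num) (by norm_num) c₀ hc0 hcond (by linarith) T hT hTθ' h,
    ae_all_iff.2 hup] with ω g1 g2
  refine ⟨?_, fun ε hε => ?_, fun k => ?_⟩
  · filter_upwards [low_det {n | ω ∈ E n} c₀ hc0 (c₀ / 4) (by positivity) g1,
      tlog.eventually_gt_atTop 0] with X h1 h2
    rw [le_div_iff₀ h2]
    linarith
  · obtain ⟨m, hm⟩ := exists_nat_gt (4 / ε)
    have hm0 : 0 < (m : ℝ) + 2 := by positivity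
    have hmε : 1 / ((m : ℝ) + 2) ≤ ε / 4 := by
      rw [div_lt_iff₀ hε] at hm
      rw [div_le_iff₀ hm0]
      linarith
    have hd : 0 < 1 / ((m : ℝ) + 2) := by positivity
    filter_upwards [up_det {n | ω ∈ E n} _ hd (g2 m), tlog.eventually_gt_atTop 0] with X h1 h3
    rw [div_le_iff₀ h3]
    nlinarith
  · rw [Set.infinite_iff_exists_gt]
    intro N
    have h2i : Tendsto (fun i : ℕ => 2 ^ i) atTop atTop := tendsto_pow_atTop_atTop_of_one_lt (by norm_num)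
    obtain ⟨i, ⟨h1, h2, h3⟩, h4⟩ := ((g1.and ((h2i.eventually (tloglog.eventually
      (Pool.Agent.U839.Ru.mul_exp (2 * k / c₀) 1 one_pos))).and (h2i.eventually
      (tlog.eventually_gt_atTop 0)))).and (h2i.eventually (eventually_ge_atTop (N + 2)))).exists
    rw [one_mul, Real.exp_log h3] at h2
    have h5 : ((2 * k : ℕ) : ℝ) * Real.log (Real.log ((2 ^ i : ℕ) : ℝ)) ≤ c₀ * Real.log ((2 ^ i : ℕ) : ℝ) := by
      have h6 : 2 * (k : ℝ) / c₀ * Real.log (Real.log ((2 ^ i : ℕ) : ℝ)) * c₀ ≤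
        Real.log ((2 ^ i : ℕ) : ℝ) * c₀ := by gcongr
      have h7 : 2 * (k : ℝ) / c₀ * Real.log (Real.log ((2 ^ i : ℕ) : ℝ)) * c₀ =
        2 * k * Real.log (Real.log ((2 ^ i : ℕ) : ℝ)) := by field_simp
      have h8 : ((2 * k : ℕ) : ℝ) = 2 * k := by push_cast; ring
      rw [h8]
      linarith
    obtain ⟨n, d, h6, -, h7, -, h8⟩ := h1 k h5
    refine ⟨n - 1, ⟨d, h7, fun j hj => ?_⟩, by omega⟩
    have h9 := h8 j hj false
    have h10 := h8 j hj true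
    unfold pt at h9 h10
    simp only [Bool.false_eq_true, if_false] at h9
    simp only [if_true] at h10
    have h11 : n - 1 + j * d = n + j * d - 1 := by omega
    have h12 : n - 1 + j * d + 2 = n + j * d + 1 := by omega
    rw [h12, h11]
    exact ⟨h9, h10⟩

end Pool.Agent.U839.Tp
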